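import Pool.Agent.Helper35.PI.St4

/-! Module V3 of project PI (MP_b2fa09_gt): first variation formula in a chart. -/

namespace Helper72.PI

open Helper35.PI
open scoped ContDiff Manifold Topology ENNReal BigOperators
open MeasureTheory Set Filter

private lemma V3_det {E : Type*} [NormedAddCommGroup E] [NormedSpace ℝ E] {k : WithTop ℕ∞}
    {m : ℕ} (M : E → Matrix (Fin m) (Fin m) ℝ) (y₀ : E)
    (h : ∀ i j, ContDiffAt ℝ k (fun y => M y i j) y₀) :
    ContDiffAt ℝ k (fun y => (M y).det) y₀ := by
  simp only [Matrix.det_apply']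
  apply ContDiffAt.sum
  intro s _
  exact contDiffAt_const.mul (contDiffAt_prod fun i _ => h _ _)

private lemma V3_adj {E : Type*} [NormedAddCommGroup E] [NormedSpace ℝ E] {k : WithTop ℕ∞}
    {m : ℕ} (M : E → Matrix (Fin m) (Fin m) ℝ) (y₀ : E)
    (h : ∀ i j, ContDiffAt ℝ k (fun y => M y i j) y₀) (i j : Fin m) :
    ContDiffAt ℝ k (fun y => (M y).adjugate i j) y₀ := by
  simp only [Matrix.adjugate_apply]
  apply V3_det
  intro a b
  by_cases ha : a = j
  · subst ha
    simp only [Matrix.updateRow_self]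
    exact contDiffAt_const
  · simp only [Matrix.updateRow_ne ha]
    exact h a b

private lemma V3_inv {E : Type*} [NormedAddCommGroup E] [NormedSpace ℝ E] {k : WithTop ℕ∞}
    {m : ℕ} (M : E → Matrix (Fin m) (Fin m) ℝ) (y₀ : E)
    (h : ∀ i j, ContDiffAt ℝ k (fun y => M y i j) y₀) (hdet : (M y₀).det ≠ 0) (i j : Fin m) :
    ContDiffAt ℝ k (fun y => (M y)⁻¹ i j) y₀ := by
  have e : (fun y => (M y)⁻¹ i j) = fun y => ((M y).det)⁻¹ * (M y).adjugate i j := by
    funext y
    rw [Matrix.inv_def, Matrix.smul_apply, Ring.inverse_eq_inv', smul_eq_mul]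
  rw [e]
  exact ((V3_det M y₀ h).inv hdet).mul (V3_adj M y₀ h i j)

private lemma V3_ne {n N : ℕ} (f : EE n → EE N) (y : EE n) (h : LI f y) :
    (gram f y).det ≠ 0 := by
  intro h0
  obtain ⟨v, hv, hv0⟩ := Matrix.exists_mulVec_eq_zero_iff.mpr h0
  apply hv
  have h1 : ∑ i, v i • dv1 f y i = 0 := by
    rw [← inner_self_eq_zero (𝕜 := ℝ), sum_inner]
    apply Finset.sum_eq_zero
    intro i _
    rw [inner_smul_left, inner_sum]
    have e : ∑ j, inner ℝ (dv1 f y i) (v j • dv1 f y j) = (Matrix.mulVec (gram f y) v) i := by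
      simp [Matrix.mulVec, dotProduct, gram, inner_smul_right, mul_comm]
    rw [e, hv0]
    simp
  funext i
  exact Fintype.linearIndependent_iff.mp h v h1 i

theorem hV3 (hV2 : StV2) : StV3 := by
  intro n N f U hU hf hLI X hX hXc hXU
  have hfy : ∀ y ∈ U, ContDiffAt ℝ 3 f y := fun y hy => (hf y hy).contDiffAt (hU.mem_nhds hy)
  have hdv : ∀ y ∈ U, ∀ j, ContDiffAt ℝ 2 (fun y' => dv1 f y' j) y := by
    intro y hy j
    exact ((hfy y hy).fderiv_right (m := 2) (by norm_num)).clm_apply contDiffAt_const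
  have hgram : ∀ y ∈ U, ∀ i j, ContDiffAt ℝ 2 (fun y' => gram f y' i j) y := by
    intro y hy i j
    exact (hdv y hy i).inner ℝ (hdv y hy j)
  have hsg : ∀ y ∈ U, ContDiffAt ℝ 2 (fun y' => sgm f y') y := by
    intro y hy
    exact (V3_det (gram f) y (hgram y hy)).sqrt (V3_ne f y (hLI y hy))
  have hinv : ∀ y ∈ U, ∀ i j, ContDiffAt ℝ 2 (fun y' => (gram f y')⁻¹ i j) y := by
    intro y hy i j
    exact V3_inv (gram f) y (hgram y hy) (V3_ne f y (hLI y hy)) i j
  have hterm : ∀ y ∈ U, ∀ i j, ContDiffAt ℝ 2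
      (fun y' => (sgm f y' * (gram f y')⁻¹ i j) • dv1 f y' j) y := by
    intro y hy i j
    exact ((hsg y hy).mul (hinv y hy i j)).smul (hdv y hy j)
  set W : Fin n → EE n → EE N := fun i y => ∑ j, (sgm f y * (gram f y)⁻¹ i j) • dv1 f y j with hW
  have hWc : ∀ y ∈ U, ∀ i, ContDiffAt ℝ 2 (W i) y := by
    intro y hy i
    exact ContDiffAt.sum fun j _ => hterm y hy i j
  set φ : Fin n → EE n → ℝ := fun i y => inner ℝ (X y) (W i y) with hφdef
  have hzero : ∀ y, y ∉ tsupport X → ∀ i, φ i =ᶠ[𝓝 y] fun _ => (0 : ℝ) := by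
    intro y hy i
    have h1 := notMem_tsupport_iff_eventuallyEq.mp hy
    filter_upwards [h1] with z hz
    show inner ℝ (X z) (W i z) = 0
    rw [hz]
    simp
  have hφ : ∀ i, ContDiff ℝ 1 (φ i) := by
    intro i
    rw [contDiff_iff_contDiffAt]
    intro y
    by_cases hy : y ∈ tsupport X
    · exact hX.contDiffAt.inner ℝ ((hWc y (hXU hy) i).of_le (by norm_num))
    · exact contDiffAt_const.congr_of_eventuallyEq (hzero y hy i)
  have hφc : ∀ i, HasCompactSupport (φ i) := by
    intro i
    apply hXc.mono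
    intro y hy hXy
    apply hy
    show inner ℝ (X y) (W i y) = 0
    rw [hXy]
    simp
  have hDc : ∀ i, Continuous (fun y => fderiv ℝ (φ i) y (ee i)) := by
    intro i
    exact ((hφ i).continuous_fderiv (by norm_num)).clm_apply continuous_const
  have hDs : ∀ i, HasCompactSupport (fun y => fderiv ℝ (φ i) y (ee i)) := by
    intro i
    exact (hφc i).fderiv_apply ℝ (ee i)
  have hDi : ∀ i, Integrable (fun y => fderiv ℝ (φ i) y (ee i)) := fun i =>
    (hDc i).integrable_of_hasCompactSupport (hDs i)
  have hint : ∀ i, ∫ y, fderiv ℝ (φ i) y (ee i) = 0 := by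
    intro i
    have h := integral_mul_fderiv_eq_neg_fderiv_mul_of_integrable (μ := volume)
      (f := fun _ : EE n => (1 : ℝ)) (g := φ i) (v := ee i)
      (by simp) (by simpa using hDi i)
      (by simpa using (hφ i).continuous.integrable_of_hasCompactSupport (hφc i))
      (fun x _ => differentiableAt_const _)
      (fun x _ => (hφ i).differentiable (by norm_num) x)
    simpa using h
  have hpt : ∀ y, ((∑ i, ∑ j, (gram f y)⁻¹ i j * inner ℝ (fderiv ℝ X y (ee i)) (dv1 f y j))
      + inner ℝ (mcv f y) (X y)) * sgm f y = ∑ i, fderiv ℝ (φ i) y (ee i) := by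
    intro y
    by_cases hy : y ∈ tsupport X
    · have hyU := hXU hy
      have hd : ∀ i, fderiv ℝ (φ i) y (ee i) =
          inner ℝ (X y) (fderiv ℝ (W i) y (ee i)) + inner ℝ (fderiv ℝ X y (ee i)) (W i y) := by
        intro i
        exact fderiv_inner_apply ℝ (hX.differentiable (by norm_num) y)
          ((hWc y hyU i).differentiableAt (by norm_num)) (ee i)
      have hWd : ∀ i, fderiv ℝ (W i) y (ee i) =
          ∑ j, fderiv ℝ (fun y' => (sgm f y' * (gram f y')⁻¹ i j) • dv1 f y' j) y (ee i) := by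
        intro i
        rw [hW]
        have h := fderiv_fun_sum (𝕜 := ℝ) (u := (Finset.univ : Finset (Fin n)))
          (A := fun j y' => (sgm f y' * (gram f y')⁻¹ i j) • dv1 f y' j) (x := y)
          (fun j _ => (hterm y hyU i j).differentiableAt (by norm_num))
        rw [h]
        simp
      have hV := hV2 n N f U hU hf hLI y hyU
      calc ((∑ i, ∑ j, (gram f y)⁻¹ i j * inner ℝ (fderiv ℝ X y (ee i)) (dv1 f y j))
            + inner ℝ (mcv f y) (X y)) * sgm f y
          = inner ℝ (X y) (sgm f y • mcv f y) + ∑ i, inner ℝ (fderiv ℝ X y (ee i)) (W i y) := by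
            rw [inner_smul_right, real_inner_comm (mcv f y) (X y), add_mul, add_comm,
              Finset.sum_mul]
            congr 1
            · ring
            · apply Finset.sum_congr rfl
              intro i _
              rw [hW]
              simp only [inner_sum, inner_smul_right, Finset.sum_mul]
              apply Finset.sum_congr rfl
              intro j _
              ring
        _ = ∑ i, fderiv ℝ (φ i) y (ee i) := by
            rw [← hV, inner_sum, ← Finset.sum_add_distrib]
            apply Finset.sum_congr rfl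
            intro i _
            rw [hd i, hWd i]
    · have h1 := notMem_tsupport_iff_eventuallyEq.mp hy
      have hX0 : X y = 0 := h1.eq_of_nhds
      have hDX : fderiv ℝ X y = 0 := by
        rw [h1.fderiv_eq]
        exact fderiv_const_apply (0 : EE N)
      have hDφ : ∀ i, fderiv ℝ (φ i) y = 0 := by
        intro i
        rw [(hzero y hy i).fderiv_eq]
        exact fderiv_const_apply (0 : ℝ)
      rw [hX0, hDX]
      simp [hDφ]
  simp_rw [hpt]
  rw [integral_finsetSum _ (fun i _ => hDi i)]
  exact Finset.sum_eq_zero fun i _ => hint i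

end Helper72.PI
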